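import Pool.Agent.Helper98.QR.StmtsC

/-!
# Row C22 of the QR block C: comparison on a finite interval
-/

namespace QR

theorem st_C22 : ST_C22 := by
  intro c e u v l0 l1 hc hc3 hu hv h0 h1 l hl0 hl1
  by_contra hcon
  push Not at hcon
  obtain ⟨m, hm, hmax⟩ := Finset.exists_max_image (Finset.Icc l0 l1) (fun x => u x - v x)
    ⟨l, Finset.mem_Icc.2 ⟨hl0, hl1⟩⟩
  have hml := hmax l (Finset.mem_Icc.2 ⟨hl0, hl1⟩)
  rw [Finset.mem_Icc] at hm
  have hpos : 0 < u m - v m := by linarith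
  have hm0 : m ≠ l0 := by
    rintro rfl
    linarith
  have hm1 : m ≠ l1 := by
    rintro rfl
    linarith
  have hlt0 : l0 < m := lt_of_le_of_ne hm.1 (Ne.symm hm0)
  have hlt1 : m < l1 := lt_of_le_of_ne hm.2 hm1
  have ha := hmax (m - 1) (Finset.mem_Icc.2 ⟨by omega, by omega⟩)
  have hb := hmax (m + 1) (Finset.mem_Icc.2 ⟨by omega, by omega⟩)
  have hum := hu m hlt0 hlt1
  have hvm := hv m hlt0 hlt1
  have e1 : c m * ((u (m - 1) - v (m - 1)) + (u m - v m) + (u (m + 1) - v (m + 1))) ≤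
      c m * (3 * (u m - v m)) := mul_le_mul_of_nonneg_left (by linarith) (hc m)
  have e2 : c m * (3 * (u m - v m)) < u m - v m := by
    have := mul_lt_mul_of_pos_right (hc3 m) (show 0 < 3 * (u m - v m) by linarith)
    linarith
  nlinarith

end QR

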