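import Pool.Agent.Helper98.QR.StmtsC

/-!
# Row C23 of the QR block C: comparison on a half line
-/

namespace QR

theorem st_C23 : ST_C23 := by
  intro c e u v w l0 hc hw hws hu hv hlim h0 p hp
  by_contra hcon
  push Not at hcon
  have hwp := hw p
  have hε : 0 < (u p - v p) / (2 * w p) := div_pos (by linarith) (by linarith)
  set ε := (u p - v p) / (2 * w p) with hεd
  have hεw : ε * w p = (u p - v p) / 2 := by
    rw [hεd]
    field_simp
  obtain ⟨L, hL⟩ := hlim ε hε
  have hpL : p ≤ max L (p + 1) := le_trans (by omega) (le_max_right _ _)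
  obtain ⟨m, hm, hmax⟩ := Finset.exists_max_image (Finset.Icc l0 (max L (p + 1)))
    (fun x => (u x - v x - ε * w x) / w x) ⟨p, Finset.mem_Icc.2 ⟨hp, hpL⟩⟩
  have hmp := hmax p (Finset.mem_Icc.2 ⟨hp, hpL⟩)
  rw [Finset.mem_Icc] at hm
  have hzp : 0 < (u p - v p - ε * w p) / w p := div_pos (by linarith) hwp
  set lam := (u m - v m - ε * w m) / w m with hlam
  have hlp : 0 < lam := lt_of_lt_of_le hzp hmp
  have hzm : u m - v m - ε * w m = lam * w m := by
    rw [hlam, div_mul_cancel₀ _ (hw m).ne']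
  have hm0 : m ≠ l0 := by
    rintro rfl
    have := mul_pos hlp (hw m)
    have := mul_pos hε (hw m)
    linarith
  have hm1 : m ≠ max L (p + 1) := by
    intro h
    have := hL m (by rw [h]; exact le_max_left _ _)
    have := mul_pos hlp (hw m)
    linarith
  have hlt0 : l0 < m := lt_of_le_of_ne hm.1 (Ne.symm hm0)
  have hlt1 : m < max L (p + 1) := lt_of_le_of_ne hm.2 hm1
  have hle : ∀ x, l0 ≤ x → x ≤ max L (p + 1) → u x - v x - ε * w x ≤ lam * w x := by
    intro x hx0 hx1
    have := hmax x (Finset.mem_Icc.2 ⟨hx0, hx1⟩)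
    rwa [div_le_iff₀ (hw x)] at this
  have ha := hle (m - 1) (by omega) (by omega)
  have hb := hle (m + 1) (by omega) (by omega)
  have hum := hu m hlt0
  have hvm := hv m hlt0
  have hwm := hws m hlt0
  have e1 : c m * ((u (m - 1) - v (m - 1) - ε * w (m - 1)) + (u m - v m - ε * w m) +
      (u (m + 1) - v (m + 1) - ε * w (m + 1))) ≤
      c m * (lam * (w (m - 1) + w m + w (m + 1))) :=
    mul_le_mul_of_nonneg_left (by linarith) (hc m)
  have e2 := mul_lt_mul_of_pos_left hwm hlp
  have e3 := mul_lt_mul_of_pos_left hwm hε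
  have e4 : c m * (u (m - 1) - v (m - 1) - ε * w (m - 1) + (u m - v m - ε * w m) +
      (u (m + 1) - v (m + 1) - ε * w (m + 1))) =
      c m * (u (m - 1) + u m + u (m + 1)) - c m * (v (m - 1) + v m + v (m + 1)) -
      ε * (c m * (w (m - 1) + w m + w (m + 1))) := by ring
  have e5 : c m * (lam * (w (m - 1) + w m + w (m + 1))) =
      lam * (c m * (w (m - 1) + w m + w (m + 1))) := by ring
  rw [e4, e5] at e1
  linarith

end QR

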