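import Pool.Agent.Helper98.QR.StmtsC

/-!
# Row C31 of the QR block C: bounds for the excursions
-/

namespace QR

namespace H78

lemma Aw_succ_nonneg (h : ℕ) : 0 ≤ Aw ((h : ℤ) + 1) := by
  unfold Aw
  push_cast
  positivity

lemma Aw_succ (h : ℕ) : Aw ((h : ℤ) + 1) =
    2 * ((h : ℝ) + 1) * ((h : ℝ) + 4) / (((h : ℝ) + 2) * ((h : ℝ) + 3)) := by
  unfold Aw
  push_cast
  congr 1 <;> ring

lemma Aw_succ_le_two (h : ℕ) : Aw ((h : ℤ) + 1) ≤ 2 := by
  rw [Aw_succ, div_le_iff₀ (by positivity)]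
  nlinarith [(Nat.cast_nonneg h : (0 : ℝ) ≤ (h : ℝ))]

lemma ex_zero (h : ℕ) : ex 0 h = 1 := by
  rw [ex]

lemma ex_succ (P h : ℕ) : ex (P + 1) h =
    Aw ((h : ℤ) + 1) * ∑ i ∈ Finset.range (P + 1), ex i (h + 1) * ex (P - i) h := by
  rw [ex, Finset.mul_sum, Finset.sum_range]
  refine Finset.sum_congr rfl fun i _ => ?_
  ring

lemma ex_nonneg : ∀ (P h : ℕ), 0 ≤ ex P h := by
  intro P
  induction P using Nat.strong_induction_on with
  | _ P ih =>
    intro h
    rcases P with _ | P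
    · rw [ex_zero]
      exact zero_le_one
    · rw [ex_succ]
      refine mul_nonneg (Aw_succ_nonneg h) (Finset.sum_nonneg fun i hi => ?_)
      rw [Finset.mem_range] at hi
      exact mul_nonneg (ih i (by omega) _) (ih (P - i) (by omega) _)

lemma conv_le (a b : ℕ → ℝ) (ha : ∀ i, 0 ≤ a i) (hb : ∀ i, 0 ≤ b i) (n : ℕ) :
    ∑ P ∈ Finset.range n, ∑ i ∈ Finset.range (P + 1), a i * b (P - i) ≤
      (∑ i ∈ Finset.range n, a i) * ∑ j ∈ Finset.range n, b j := by
  rw [Finset.sum_range_diag_flip n (fun i j => a i * b j), Finset.sum_mul]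
  refine Finset.sum_le_sum fun i _ => ?_
  rw [← Finset.mul_sum]
  refine mul_le_mul_of_nonneg_left ?_ (ha i)
  refine Finset.sum_le_sum_of_subset_of_nonneg ?_ fun j _ _ => hb j
  exact Finset.range_subset_range.2 (by omega)

/-- one step of the induction -/
lemma sum_succ_le (x : ℝ) (hx : 0 ≤ x) (n h : ℕ) :
    ∑ P ∈ Finset.range (n + 1), ex P h * x ^ P ≤
      1 + x * Aw ((h : ℤ) + 1) * ((∑ P ∈ Finset.range n, ex P (h + 1) * x ^ P) *
        ∑ P ∈ Finset.range n, ex P h * x ^ P) := by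
  rw [Finset.sum_range_succ', ex_zero, pow_zero, mul_one, add_comm]
  refine add_le_add le_rfl ?_
  have e : ∀ P ∈ Finset.range n, ex (P + 1) h * x ^ (P + 1) = x * Aw ((h : ℤ) + 1) *
      ∑ i ∈ Finset.range (P + 1), (ex i (h + 1) * x ^ i) * (ex (P - i) h * x ^ (P - i)) := by
    intro P _
    rw [ex_succ, Finset.mul_sum, Finset.mul_sum, Finset.sum_mul]
    refine Finset.sum_congr rfl fun i hi => ?_
    rw [Finset.mem_range] at hi
    have : x ^ (P + 1) = x * (x ^ i * x ^ (P - i)) := by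
      rw [← pow_add, ← pow_succ']
      congr 1
      omega
    rw [this]
    ring
  rw [Finset.sum_congr rfl e, ← Finset.mul_sum]
  refine mul_le_mul_of_nonneg_left ?_ (mul_nonneg hx (Aw_succ_nonneg h))
  exact conv_le (fun i => ex i (h + 1) * x ^ i) (fun i => ex i h * x ^ i)
    (fun i => mul_nonneg (ex_nonneg _ _) (pow_nonneg hx _))
    (fun i => mul_nonneg (ex_nonneg _ _) (pow_nonneg hx _)) n

lemma sum_nonneg' (x : ℝ) (hx : 0 ≤ x) (n h : ℕ) :
    0 ≤ ∑ P ∈ Finset.range n, ex P h * x ^ P :=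
  Finset.sum_nonneg fun _ _ => mul_nonneg (ex_nonneg _ _) (pow_nonneg hx _)

/-- general supersolution principle -/
lemma sum_le (x : ℝ) (hx : 0 ≤ x) (V : ℕ → ℝ) (hV0 : ∀ h, 0 ≤ V h)
    (hV : ∀ h : ℕ, 1 + x * Aw ((h : ℤ) + 1) * (V (h + 1) * V h) ≤ V h) (n h : ℕ) :
    ∑ P ∈ Finset.range n, ex P h * x ^ P ≤ V h := by
  induction n generalizing h with
  | zero => simpa using hV0 h
  | succ n ih =>
    refine le_trans (sum_succ_le x hx n h) (le_trans ?_ (hV h))
    refine add_le_add le_rfl (mul_le_mul_of_nonneg_left ?_ (mul_nonneg hx (Aw_succ_nonneg h)))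
    exact mul_le_mul (ih (h + 1)) (ih h) (sum_nonneg' x hx n h) (hV0 _)

end H78

open H78 in
theorem st_C31 : ST_C31 := by
  intro w n h hw0 hw1
  have hx : 0 ≤ (1 - w ^ 2) / 8 := by
    have : w ^ 2 ≤ 1 := by nlinarith
    linarith
  have hw1' : 0 < 1 + w := by linarith
  refine ⟨sum_le _ hx (fun _ => 2 / (1 + w)) (fun _ => by positivity) (fun h => ?_) n h, ?_⟩
  · have h2 := Aw_succ_le_two h
    have e : (1 : ℝ) + (1 - w ^ 2) / 8 * 2 * (2 / (1 + w) * (2 / (1 + w))) = 2 / (1 + w) := by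
      field_simp
      ring
    calc (1 : ℝ) + (1 - w ^ 2) / 8 * Aw ((h : ℤ) + 1) * (2 / (1 + w) * (2 / (1 + w)))
        ≤ 1 + (1 - w ^ 2) / 8 * 2 * (2 / (1 + w) * (2 / (1 + w))) := by
          refine add_le_add le_rfl (mul_le_mul_of_nonneg_right ?_ (by positivity))
          exact mul_le_mul_of_nonneg_left h2 hx
      _ = 2 / (1 + w) := e
  · have := sum_le _ hx (fun h => 2 * ((h : ℝ) + 2) / ((h : ℝ) + 3)) (fun _ => by positivity)
      (fun h => ?_) n h
    · exact this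
    · have hh : (0 : ℝ) ≤ (h : ℝ) := Nat.cast_nonneg h
      have e : (1 : ℝ) + 1 / 8 * Aw ((h : ℤ) + 1) *
          (2 * (((h + 1 : ℕ) : ℝ) + 2) / (((h + 1 : ℕ) : ℝ) + 3) *
            (2 * ((h : ℝ) + 2) / ((h : ℝ) + 3))) = 2 * ((h : ℝ) + 2) / ((h : ℝ) + 3) := by
        rw [Aw_succ]
        push_cast
        field_simp
        ring
      refine le_trans ?_ e.le
      refine add_le_add le_rfl (mul_le_mul_of_nonneg_right ?_ (by positivity))
      refine mul_le_mul_of_nonneg_right ?_ (Aw_succ_nonneg h)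
      have := sq_nonneg w
      linarith

end QR

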