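import Pool.Agent.Helper98.QR.StmtsS

/-!
# Row S01 of the QR block S: the multigraph of a map
-/

namespace QR.H78

open QR

theorem near_add {V : Type} (c : V → V → ℕ) (r s : ℕ) (x y z : V) (h1 : SPR.Near c r x y)
    (h2 : SPR.Near c s y z) : SPR.Near c (r + s) x z := by
  induction s generalizing z with
  | zero =>
    have : y = z := h2
    rw [← this]
    exact h1
  | succ s ih =>
    rcases h2 with h2 | ⟨w, h2, h3⟩
    · exact Or.inl (ih z h2)
    · exact Or.inr ⟨w, ih w h2, h3⟩

theorem near_one {V : Type} (c : V → V → ℕ) (x y : V) (h : c x y ≠ 0) : SPR.Near c 1 x y :=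
  Or.inr ⟨x, rfl, h⟩

theorem near_symm {V : Type} (c : V → V → ℕ) (hc : ∀ x y, c x y = c y x) (r : ℕ) (x y : V)
    (h : SPR.Near c r x y) : SPR.Near c r y x := by
  induction r generalizing y with
  | zero => exact Eq.symm h
  | succ r ih =>
    rcases h with h | ⟨z, h, h3⟩
    · exact Or.inl (ih y h)
    · have h4 := near_add c 1 r y z x (near_one c y z (by rw [hc]; exact h3)) (ih z h)
      rwa [add_comm] at h4

theorem mult_symm {D : Type} (m : RMap D) (x y : m.Vert) : m.mult x y = m.mult y x := by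
  unfold RMap.mult
  refine Nat.card_congr
    { toFun := fun d => ⟨m.opp d.1, d.2.2, by rw [m.opp_opp]; exact d.2.1⟩
      invFun := fun d => ⟨m.opp d.1, d.2.2, by rw [m.opp_opp]; exact d.2.1⟩
      left_inv := fun d => Subtype.ext (m.opp_opp _)
      right_inv := fun d => Subtype.ext (m.opp_opp _) }

theorem mult_ne_zero_iff {D : Type} [Finite D] (m : RMap D) (x y : m.Vert) :
    m.mult x y ≠ 0 ↔ ∃ d, m.tail d = x ∧ m.tail (m.opp d) = y := by
  unfold RMap.mult
  rw [Nat.card_ne_zero]
  constructor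
  · rintro ⟨⟨d⟩, -⟩
    exact ⟨d.1, d.2⟩
  · rintro ⟨d, hd⟩
    exact ⟨⟨⟨d, hd⟩⟩, inferInstance⟩

theorem deg_eq {D : Type} [Finite D] (m : RMap D) (x : m.Vert) :
    SPR.deg m.mult x = Nat.card {d // m.tail d = x} := by
  have _ : Fintype m.Vert := Fintype.ofFinite _
  unfold SPR.deg
  rw [finsum_eq_sum_of_fintype]
  have e : {d // m.tail d = x} ≃ (Σ y : m.Vert, {d : D // m.tail d = x ∧ m.tail (m.opp d) = y}) :=
    { toFun := fun d => ⟨m.tail (m.opp d.1), ⟨d.1, d.2, rfl⟩⟩
      invFun := fun p => ⟨p.2.1, p.2.2.1⟩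
      left_inv := fun _ => rfl
      right_inv := by
        rintro ⟨y, d, h1, h2⟩
        subst h2
        rfl }
  rw [Nat.card_congr e, Nat.card_sigma]
  rfl

theorem tail_rot {D : Type} (m : RMap D) (d : D) : m.tail (m.rot d) = m.tail d := by
  refine Quotient.sound ?_
  exact ⟨-1, by simp⟩

end QR.H78

namespace QR

open QR.H78

theorem st_S01 : ST_S01 := by
  intro D _ m
  refine ⟨mult_symm m, near_symm _ (mult_symm m), near_add _, deg_eq m, fun d => ?_,
    mult_ne_zero_iff m, fun hC x y => ?_⟩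
  · rw [mult_ne_zero_iff]
    exact ⟨d, rfl, rfl⟩
  · induction x using Quotient.inductionOn with
    | _ d =>
    induction y using Quotient.inductionOn with
    | _ d' =>
    have h := hC d d'
    induction h with
    | refl => exact ⟨0, rfl⟩
    | tail _ hs ih =>
      obtain ⟨r, hr⟩ := ih
      rcases hs with hs | hs
      · refine ⟨r, ?_⟩
        rw [hs]
        have := tail_rot m
        unfold RMap.tail at this
        rw [this]
        exact hr
      · refine ⟨r + 1, near_add _ r 1 _ _ _ hr (near_one _ _ _ ?_)⟩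
        rw [hs, mult_ne_zero_iff]
        exact ⟨_, rfl, rfl⟩

end QR

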