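import Pool.Agent.Helper78.QR.S01

/-!
# Row S03 of the QR block S: the degrees in terms of codes
-/

namespace QR.H78

open QR

theorem finite_rmap (D : Type) [Finite D] : Finite (RMap D) := by
  have _ : Fintype D := Fintype.ofFinite D
  classical
  refine Finite.of_injective (fun m : RMap D => (m.rot, m.opp)) ?_
  intro m m' h
  simp only [Prod.mk.injEq] at h
  exact RMap.ext h.1 h.2

theorem exists_min {P : ℕ} (c : Code P) (h0 : ∀ i, 0 ≤ c.b i) : ∃ k : ℕ, c.Min k := by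
  classical
  have hex : ∃ n : ℕ, ∃ i, c.b i = n := ⟨(c.b 0).toNat, 0, (Int.toNat_of_nonneg (h0 0)).symm⟩
  refine ⟨Nat.find hex, fun i => ?_, Nat.find_spec hex⟩
  have h1 : Nat.find hex ≤ (c.b i).toNat :=
    Nat.find_min' hex ⟨i, (Int.toNat_of_nonneg (h0 i)).symm⟩
  have h2 := Int.toNat_of_nonneg (h0 i)
  omega

theorem W_dg_nonneg (h04 : ST_C04) {P : ℕ} (c : Code P) : 0 ≤ c.W dg pos := by
  classical
  unfold Code.W
  refine Finset.prod_nonneg fun i _ => ?_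
  rw [h04.2.2.1]
  split_ifs
  · positivity
  · exact le_rfl

theorem W_dg_pos (h04 : ST_C04) {P : ℕ} (c : Code P) (hc : c.Pos) :
    c.W dg pos = (13 / 12 : ℝ) ^ (c.cor 1) := by
  classical
  unfold Code.W Code.cor
  rw [← Finset.prod_pow_eq_pow_sum]
  refine Finset.prod_congr rfl fun i hi => ?_
  rw [h04.2.2.1, if_pos]
  exact (hc i (Finset.mem_filter.1 hi).2).2

open Classical in
/-- sums over pointed maps as sums over codes: `g` is evaluated on the codes with minimum `k ≤ h` -/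
theorem sum_le_codes (h01 : ST_C01) (N P h : ℕ) (hP : 1 ≤ P)
    (κ : (Σ x : {x // x ∈ GQ N P}, x.1.1.Vert) → Code P)
    (hsize : ∀ y, (κ y).size = N)
    (h0 : ∀ y i, 0 ≤ (κ y).b i)
    (hb : ∀ y i (r : ℕ), (κ y).b i ≤ r ↔
        SPR.Near y.1.1.1.mult r y.2 (y.1.1.1.tail ((y.1.1.1.face ^ i) y.1.1.2)))
    (hfib : ∀ c, Nat.card {y // κ y = c} ≤ (4 * N + 2 * P).factorial)
    (F : (Σ x : {x // x ∈ GQ N P}, x.1.1.Vert) → ℝ) (g : Code P → ℝ)
    (hg : ∀ c, 0 ≤ g c) (hF : ∀ y, F y ≤ g (κ y)) :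
    ∑ᶠ (x) (_ : x ∈ GQ N P), ∑ᶠ (v : x.1.Vert) (_ : NB x.1 x.2 h v),
      (if hx : x ∈ GQ N P then F ⟨⟨x, hx⟩, v⟩ else 0) ≤
    (4 * N + 2 * P).factorial * ∑ k ∈ Finset.range (h + 1),
      ∑ᶠ (c : Code P) (_ : c.Min k ∧ c.size = N), g c := by
  have _ : Finite (RMap (Fin (4 * N + 2 * P))) := finite_rmap _
  have _ : Fintype {x // x ∈ GQ N P} := Fintype.ofFinite _
  have _ : ∀ x : {x // x ∈ GQ N P}, Fintype x.1.1.Vert := fun x => Fintype.ofFinite _
  -- boundary and minimum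
  have hNB : ∀ y : (Σ x : {x // x ∈ GQ N P}, x.1.1.Vert), NB y.1.1.1 y.1.1.2 h y.2 →
      ∃ k ∈ Finset.range (h + 1), (κ y).Min ((k : ℕ) : ℤ) := by
    rintro y ⟨i, hi⟩
    have h1 := (hb y i h).2 (near_symm _ (mult_symm _) _ _ _ hi)
    obtain ⟨k, hk⟩ := exists_min (κ y) (h0 y)
    refine ⟨k, ?_, hk⟩
    rw [Finset.mem_range]
    have := hk.1 i
    omega
  have hL : ∑ᶠ (x) (_ : x ∈ GQ N P), ∑ᶠ (v : x.1.Vert) (_ : NB x.1 x.2 h v),
      (if hx : x ∈ GQ N P then F ⟨⟨x, hx⟩, v⟩ else 0) =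
      ∑ y : (Σ x : {x // x ∈ GQ N P}, x.1.1.Vert),
        if NB y.1.1.1 y.1.1.2 h y.2 then F y else 0 := by
    rw [← finsum_set_coe_eq_finsum_mem, finsum_eq_sum_of_fintype, Fintype.sum_sigma]
    refine Finset.sum_congr rfl fun x _ => ?_
    rw [finsum_eq_sum_of_fintype]
    refine Finset.sum_congr rfl fun v _ => ?_
    rw [finsum_eq_if]
    have hx : x.1 ∈ GQ N P := x.2
    split_ifs <;> rfl
  rw [hL]
  have h1 : ∀ y : (Σ x : {x // x ∈ GQ N P}, x.1.1.Vert),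
      (if NB y.1.1.1 y.1.1.2 h y.2 then F y else 0) ≤
        ∑ k ∈ Finset.range (h + 1), if (κ y).Min k then g (κ y) else 0 := by
    intro y
    have hnn : ∀ k ∈ Finset.range (h + 1), (0 : ℝ) ≤ if (κ y).Min k then g (κ y) else 0 := by
      intro k _
      split_ifs
      · exact hg _
      · exact le_rfl
    split_ifs with hy
    · obtain ⟨k, hk, hm⟩ := hNB y hy
      refine le_trans (hF y) ?_
      refine le_trans (le_of_eq ?_) (Finset.single_le_sum hnn hk)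
      rw [if_pos hm]
    · exact Finset.sum_nonneg hnn
  refine le_trans (Finset.sum_le_sum fun y _ => h1 y) ?_
  rw [Finset.sum_comm, Finset.mul_sum]
  refine Finset.sum_le_sum fun k _ => ?_
  have hfin : {c : Code P | c.Min k ∧ c.size = N}.Finite := h01.2.2 P N k hP
  set S := hfin.toFinset with hS
  have h2 : ∑ᶠ (c : Code P) (_ : c.Min k ∧ c.size = N), g c = ∑ c ∈ S, g c := by
    rw [hS, ← finsum_mem_eq_finite_toFinset_sum _ hfin]
    rfl
  rw [h2, Finset.mul_sum]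
  have h3 : ∑ y : (Σ x : {x // x ∈ GQ N P}, x.1.1.Vert), (if (κ y).Min k then g (κ y) else 0) =
      ∑ y ∈ Finset.univ.filter (fun y : (Σ x : {x // x ∈ GQ N P}, x.1.1.Vert) =>
        (κ y).Min k), g (κ y) := by
    rw [Finset.sum_filter]
  rw [h3, ← Finset.sum_fiberwise_of_maps_to (s := Finset.univ.filter
    (fun y : (Σ x : {x // x ∈ GQ N P}, x.1.1.Vert) => (κ y).Min k)) (t := S) (g := κ)
    (fun y hy => by
      rw [hS, Set.Finite.mem_toFinset]
      exact ⟨(Finset.mem_filter.1 hy).2, hsize y⟩)]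
  refine Finset.sum_le_sum fun c _ => ?_
  have h4 : ∑ y ∈ (Finset.univ.filter (fun y : (Σ x : {x // x ∈ GQ N P}, x.1.1.Vert) =>
      (κ y).Min k)).filter (fun y => κ y = c), g (κ y) =
      (((Finset.univ.filter (fun y : (Σ x : {x // x ∈ GQ N P}, x.1.1.Vert) =>
      (κ y).Min k)).filter (fun y => κ y = c)).card : ℝ) * g c := by
    rw [Finset.sum_congr rfl (g := fun _ => g c) (fun y hy => by rw [(Finset.mem_filter.1 hy).2]),
      Finset.sum_const, nsmul_eq_mul]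
  rw [h4]
  refine mul_le_mul_of_nonneg_right ?_ (hg c)
  have h5 : ((Finset.univ.filter (fun y : (Σ x : {x // x ∈ GQ N P}, x.1.1.Vert) =>
      (κ y).Min k)).filter (fun y => κ y = c)).card ≤ Nat.card {y // κ y = c} := by
    rw [Nat.card_eq_fintype_card, Fintype.card_subtype]
    refine Finset.card_le_card fun y hy => ?_
    rw [Finset.mem_filter]
    exact ⟨Finset.mem_univ _, (Finset.mem_filter.1 hy).2⟩
  exact_mod_cast h5.trans (hfib c)

end QR.H78

namespace QR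

open QR.H78

theorem st_S03 (h01 : ST_C01) (h04 : ST_C04) (hB : ST_B) : ST_S03 := by
  classical
  intro N P h hP
  obtain ⟨κ, hsize, hpos, h0, hb, hcor, -, hfib⟩ := hB N P hP
  have key := sum_le_codes h01 N P h hP κ hsize h0 hb hfib
    (fun y => (13 / 12 : ℝ) ^ (SPR.deg y.1.1.1.mult y.2)) (fun c => c.W dg pos)
    (fun c => W_dg_nonneg h04 c) (fun y => by rw [W_dg_pos h04 _ (hpos y), hcor])
  have e1 : ∑ᶠ (x) (_ : x ∈ GQ N P), Fdeg h _ x.1 x.2 =
      ∑ᶠ (x) (_ : x ∈ GQ N P), ∑ᶠ (v : x.1.Vert) (_ : NB x.1 x.2 h v),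
      (if hx : x ∈ GQ N P then (fun y : (Σ x : {x // x ∈ GQ N P}, x.1.1.Vert) =>
        (13 / 12 : ℝ) ^ (SPR.deg y.1.1.1.mult y.2)) ⟨⟨x, hx⟩, v⟩ else 0) := by
    refine finsum_congr fun x => finsum_congr fun hx => ?_
    unfold Fdeg
    refine finsum_congr fun v => finsum_congr fun _ => ?_
    rw [dif_pos hx]
  have e2 : ∀ k : ℕ, (12 : ℝ) ^ N * PowerSeries.coeff N (CS dg pos P k) =
      ∑ᶠ (c : Code P) (_ : c.Min k ∧ c.size = N), c.W dg pos := by
    intro k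
    unfold CS
    rw [PowerSeries.coeff_mk, ← mul_assoc, ← mul_pow]
    norm_num
  rw [e1]
  refine key.trans (le_of_eq ?_)
  rw [mul_assoc, Finset.mul_sum (a := (12 : ℝ) ^ N)]
  congr 1
  exact Finset.sum_congr rfl fun k _ => (e2 k).symm

end QR

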