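import Pool.Agent.Helper88.QR.StmtsB

/-!
# Row B03 of the QR block B: half of the darts of a face are down darts
-/

namespace QRB

open QR

open Classical in
theorem st_B03 : ST_B03 := by
  intro D _ m lam hL d
  set S : Finset D := Finset.univ.filter (fun d' => m.face.SameCycle d d') with hS
  have hlam : ∀ x, lam (m.face x) = lam (m.opp x) := fun x => hL.rot (m.opp x)
  have hsum : ∑ x ∈ S, (lam (m.face x) : ℤ) = ∑ x ∈ S, (lam x : ℤ) := by
    refine Finset.sum_equiv m.face (fun x => ?_) (fun x _ => rfl)
    simp only [hS, Finset.mem_filter, Finset.mem_univ, true_and]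
    exact Equiv.Perm.sameCycle_apply_right.symm
  have hterm : ∀ x, (lam (m.face x) : ℤ) - lam x = 1 - 2 * (if Des m lam x then 1 else 0) := by
    intro x
    rw [hlam]
    by_cases hx : Des m lam x
    · rw [if_pos hx]
      have : lam (m.opp x) + 1 = lam x := hx
      push_cast [← this]
      ring
    · rw [if_neg hx]
      have h1 : lam (m.opp x) = lam x + 1 := (hL.opp x).resolve_right hx
      rw [h1]
      push_cast
      ring
  have h0 : (0 : ℤ) = (S.card : ℤ) - 2 * ((S.filter (Des m lam)).card : ℤ) := by
    have h1 : ∑ x ∈ S, ((lam (m.face x) : ℤ) - lam x) = 0 := by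
      rw [Finset.sum_sub_distrib, hsum, sub_self]
    rw [← h1, Finset.sum_congr rfl fun x _ => hterm x, Finset.sum_sub_distrib, ← Finset.mul_sum,
      Finset.sum_boole]
    simp
  have e : {c : Dn m lam // m.face.SameCycle d c.1} ≃ {x // x ∈ S.filter (Des m lam)} :=
    { toFun := fun c => ⟨c.1.1, Finset.mem_filter.2
        ⟨Finset.mem_filter.2 ⟨Finset.mem_univ _, c.2⟩, c.1.2⟩⟩
      invFun := fun x => ⟨⟨x.1, (Finset.mem_filter.1 x.2).2⟩,
        (Finset.mem_filter.1 (Finset.mem_filter.1 x.2).1).2⟩
      left_inv := fun _ => rfl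
      right_inv := fun _ => rfl }
  have h2 : Nat.card {c : Dn m lam // m.face.SameCycle d c.1} = (S.filter (Des m lam)).card := by
    rw [Nat.card_congr e, Nat.card_eq_fintype_card, Fintype.card_coe]
  have h3 : m.fdeg d = S.card := by
    unfold RMap.fdeg
    rw [Nat.card_eq_fintype_card, Fintype.card_subtype]
  rw [h2, h3]
  omega

end QRB

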