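import Pool.Agent.Helper88.QR.StmtsB

/-!
# Row B08 of the QR block B: the trees
-/

namespace QRB

open QR

open Classical in
theorem st_B08 (h06 : ST_B06) (h07 : ST_B07) : ST_B08 := by
  intro C V F _ _ _ τ α lab vt fc O hL
  have key : ∀ b, fc b = O → ∃ t : LT, 2 * t.edges + 1 ≤ Nat.card C ∧
      α b = (τ ^ (2 * t.edges + 1)) b ∧
      (∀ i, 1 ≤ i → i < 2 * t.edges + 1 → fc ((τ ^ i) b) ≠ O) ∧
      Enc τ α lab t (τ b) (α b) := by
    intro b hb
    obtain ⟨j, hj1, hjc, hαb, hin⟩ := h06 C V F τ α lab vt fc O hL b hb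
    have hpw : ∀ i, (τ ^ i) (τ b) = (τ ^ (i + 1)) b := fun i => by
      rw [pow_succ]
      rfl
    obtain ⟨t, ht, hte⟩ := h07 C V F τ α lab vt fc O hL (j - 1) (τ b) (by omega) (by
      intro i hi
      obtain ⟨h1, i', hi1, hi2, h2⟩ := hin (i + 1) (by omega) (by omega)
      refine ⟨by rw [hpw]; exact h1, i' - 1, by omega, ?_⟩
      rw [hpw, hpw, h2]
      congr 2
      omega)
    have hj : 2 * t.edges + 1 = j := by omega
    refine ⟨t, by omega, by rw [hj]; exact hαb, fun i h1 h2 => (hin i h1 (by omega)).1, ?_⟩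
    rw [hpw, show j - 1 + 1 = j by omega, ← hαb] at ht
    exact ht
  refine ⟨fun b => if h : fc b = O then (key b h).choose else LT.nil, ⟨?_, ?_, ?_, ?_⟩⟩ <;>
  intro b hb <;> rw [dif_pos hb]
  · exact (key b hb).choose_spec.1
  · exact (key b hb).choose_spec.2.1
  · exact (key b hb).choose_spec.2.2.1
  · exact (key b hb).choose_spec.2.2.2

end QRB

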