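import Pool.Agent.Helper88.QR.StmtsB

/-!
# Row B11 of the QR block B: last corners of the vertices of a tree
-/

namespace QRB.H78

open QR

theorem enc_len {C : Type} {τ α : Equiv.Perm C} {lab : C → ℕ} {t : LT} {a z : C}
    (h : Enc τ α lab t a z) : (τ ^ (2 * t.edges)) a = z := by
  induction h with
  | nil x => rfl
  | cons x z δ t s hne hi hl h1 h2 ih1 ih2 =>
    have e1 : α x = (τ ^ (2 * t.edges + 1)) x := by
      rw [← ih1, pow_succ]
      rfl
    have e2 : τ (α x) = (τ ^ (2 * t.edges + 2)) x := by
      rw [e1, show 2 * t.edges + 2 = (2 * t.edges + 1) + 1 from rfl, pow_succ' τ (2 * t.edges + 1)]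
      rfl
    rw [← ih2, e2, ← Equiv.Perm.mul_apply, ← pow_add]
    congr 2
    simp only [LT.edges]
    ring

end QRB.H78

namespace QRB

open QR QRB.H78

theorem st_B11 (_h10 : ST_B10) : ST_B11 := by
  intro C V τ α lab vt t a z h hvt hlab
  induction h with
  | nil x =>
    refine ⟨[x], rfl, fun i hi => ⟨x, by simp, ?_⟩, fun r => ?_⟩
    · have : i = 0 := by
        simp only [LT.edges] at hi
        omega
      rw [this]
      rfl
    · by_cases hr : (lab x : ℤ) ≤ r
      · simp [hr, LT.low]
      · simp [hr, LT.low]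
  | cons x z δ t s hne hi hl h1 h2 ih1 ih2 =>
    obtain ⟨Z1, l1, c1, f1⟩ := ih1
    obtain ⟨Z2, l2, c2, f2⟩ := ih2
    have e1 : (τ ^ (2 * t.edges)) (τ x) = α x := enc_len h1
    have hvx : vt (τ (α x)) = vt x := by rw [hvt, hi]
    have hlx : lab (τ (α x)) = lab x := hlab _ _ hvx
    refine ⟨Z1 ++ Z2, ?_, fun i hi' => ?_, fun r => ?_⟩
    · rw [List.length_append, l1, l2]
      simp only [LT.edges]
      omega
    · rcases Nat.eq_zero_or_pos i with h0 | h0
      · obtain ⟨y, hy, hy'⟩ := c2 0 (Nat.zero_le _)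
        refine ⟨y, List.mem_append_right _ hy, ?_⟩
        rw [h0, pow_zero, Equiv.Perm.one_apply, ← hvx, ← hy']
        rfl
      · by_cases h3 : i ≤ 2 * t.edges + 1
        · obtain ⟨y, hy, hy'⟩ := c1 (i - 1) (by omega)
          refine ⟨y, List.mem_append_left _ hy, ?_⟩
          rw [← hy', ← Equiv.Perm.mul_apply, ← pow_succ]
          congr 3
          omega
        · obtain ⟨y, hy, hy'⟩ := c2 (i - (2 * t.edges + 2)) (by
            simp only [LT.edges] at hi'
            omega)
          refine ⟨y, List.mem_append_right _ hy, ?_⟩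
          rw [← hy', ← e1, ← Equiv.Perm.mul_apply, ← Equiv.Perm.mul_apply, ← Equiv.Perm.mul_apply,
            ← pow_succ, mul_assoc, ← pow_succ, ← pow_add]
          congr 3
          omega
    · rw [List.filter_append, List.length_append, f1, f2, hlx, hl]
      simp only [LT.low]
      ring

end QRB

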