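import Pool.Agent.Helper88.QR.StmtsB

/-!
# Row B12 of the QR block B: the number of vertices with label at most `r`
-/

namespace QRB

open QR

open Classical in
theorem st_B12 (h09 : ST_B09) (h11 : ST_B11) : ST_B12 := by
  intro C V F _ _ _ τ α lab vt fc O T hL hT hcard r
  have _ : Fintype V := Fintype.ofFinite V
  set S : Finset C := Finset.univ.filter (fun b => fc b = O) with hS
  have hlab : ∀ c, lab (τ c) = lab (α c) := fun c => hL.lab_vt _ _ (hL.vt_eq c)
  -- the lists of last corners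
  have hex : ∀ b, ∃ Z : List C, fc b = O → Z.length = (T b).edges + 1 ∧
      (∀ i ≤ 2 * (T b).edges, ∃ y ∈ Z, vt ((τ ^ i) (τ b)) = vt y) ∧
      (Z.filter (fun y => decide ((lab y : ℤ) ≤ r))).length =
        (if (lab (α b) : ℤ) ≤ r then 1 else 0) + (T b).low r (lab (α b)) := by
    intro b
    by_cases hb : fc b = O
    · obtain ⟨Z, h1, h2, h3⟩ := h11 C V τ α lab vt (T b) (τ b) (α b) (hT.enc b hb) hL.vt_eq
        hL.lab_vt
      have h4 := h3 r
      rw [hlab b] at h4
      exact ⟨Z, fun _ => ⟨h1, h2, h4⟩⟩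
    · exact ⟨[], fun h => absurd h hb⟩
  choose Z hZ using hex
  set M : Multiset V := ∑ b ∈ S, ((Z b).map vt : Multiset V) with hM
  have hMc : Multiset.card M = Fintype.card V := by
    rw [hM, Multiset.card_sum, ← Nat.card_eq_fintype_card, ← hcard]
    refine Finset.sum_congr rfl fun b hb => ?_
    rw [Multiset.coe_card, List.length_map]
    exact (hZ b (Finset.mem_filter.1 hb).2).1
  have hMm : ∀ v, v ∈ M := by
    intro v
    obtain ⟨c, rfl⟩ := hL.vt_surj v
    have hO : ∃ b, fc b = O := by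
      obtain ⟨b, hb⟩ := hL.fc_surj O
      exact ⟨b, hb⟩
    have hsum := h09 C F τ α lab fc O T hL.cyc hO hT hL.fc_eq (fun x => if x = c then 1 else 0)
    rw [Finset.sum_ite_eq' Finset.univ c, if_pos (Finset.mem_univ c)] at hsum
    have hne : ∑ b with fc b = O, ∑ i ∈ Finset.Ico 1 (2 * (T b).edges + 2),
        (if (τ ^ i) b = c then 1 else 0) ≠ 0 := by
      rw [← hsum]
      exact one_ne_zero
    obtain ⟨b, hb, hb2⟩ := Finset.exists_ne_zero_of_sum_ne_zero hne
    obtain ⟨i, hi, hi2⟩ := Finset.exists_ne_zero_of_sum_ne_zero hb2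
    rw [Finset.mem_Ico] at hi
    have hic : (τ ^ i) b = c := by
      by_contra h
      rw [if_neg h] at hi2
      exact hi2 rfl
    have hb' : fc b = O := (Finset.mem_filter.1 hb).2
    obtain ⟨-, h2, -⟩ := hZ b hb'
    obtain ⟨y, hy, hy'⟩ := h2 (i - 1) (by omega)
    rw [hM, Multiset.mem_sum]
    refine ⟨b, hb, ?_⟩
    rw [Multiset.mem_coe, List.mem_map]
    refine ⟨y, hy, ?_⟩
    rw [← hy', ← Equiv.Perm.mul_apply, ← pow_succ, show i - 1 + 1 = i by omega, hic]
  have hMu : M = (Finset.univ : Finset V).val := by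
    symm
    refine Multiset.eq_of_le_of_card_le ?_ ?_
    · rw [Multiset.le_iff_subset Finset.univ.nodup]
      exact fun v _ => hMm v
    · rw [hMc]
      exact le_rfl
  have h1 : Nat.card {v : V // ∃ c, vt c = v ∧ (lab c : ℤ) ≤ r} =
      Multiset.countP (fun v => ∃ c, vt c = v ∧ (lab c : ℤ) ≤ r) M := by
    rw [hMu, Nat.card_eq_fintype_card, Fintype.card_subtype, Multiset.countP_eq_card_filter]
    rfl
  rw [h1, hM, ← Multiset.coe_countPAddMonoidHom, map_sum]
  refine Finset.sum_congr rfl fun b hb => ?_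
  rw [Multiset.coe_countPAddMonoidHom, Multiset.coe_countP, List.countP_map,
    ← (hZ b (Finset.mem_filter.1 hb).2).2.2, List.countP_eq_length_filter]
  congr 1
  refine List.filter_congr fun y _ => ?_
  simp only [Function.comp, decide_eq_decide]
  constructor
  · rintro ⟨c, hc, hr⟩
    rwa [← hL.lab_vt _ _ hc]
  · intro hr
    exact ⟨y, rfl, hr⟩

end QRB

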