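import Pool.Agent.Helper88.QR.StmtsB

/-!
# Row B13 of the QR block B: codes with the same trees and labels are isomorphic
-/

namespace QRB.H78

open QR

theorem pow_app {C : Type} (τ : Equiv.Perm C) (i j : ℕ) (x : C) :
    (τ ^ i) ((τ ^ j) x) = (τ ^ (i + j)) x := by
  rw [pow_add]
  rfl

theorem pow_app_one {C : Type} (τ : Equiv.Perm C) (i : ℕ) (x : C) :
    (τ ^ i) (τ x) = (τ ^ (i + 1)) x := by
  rw [pow_succ]
  rfl

/-- all codes with the contour of `t` from `a` to `z` look the same -/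
theorem matching (t : LT) : ∃ (μ : ℕ → ℕ) (ν : ℕ → ℤ), ∀ (C : Type) (τ α : Equiv.Perm C)
    (lab : C → ℕ) (a z : C), (∀ c, lab (τ c) = lab (α c)) → Enc τ α lab t a z →
    (τ ^ (2 * t.edges)) a = z ∧
    (∀ i < 2 * t.edges, μ i < 2 * t.edges ∧ α ((τ ^ i) a) = (τ ^ (μ i)) a) ∧
    (∀ i ≤ 2 * t.edges, (lab ((τ ^ i) a) : ℤ) = lab a + ν i) := by
  induction t with
  | nil =>
    refine ⟨fun _ => 0, fun _ => 0, ?_⟩
    rintro C τ α lab a z - h
    cases h
    simp only [LT.edges, Nat.mul_zero, pow_zero, Equiv.Perm.one_apply, Nat.not_lt_zero,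
      IsEmpty.forall_iff, implies_true, true_and, nonpos_iff_eq_zero, forall_eq, add_zero]
  | cons δ t s ih1 ih2 =>
    obtain ⟨μ1, ν1, h1⟩ := ih1
    obtain ⟨μ2, ν2, h2⟩ := ih2
    refine ⟨fun i => if i = 0 then 2 * t.edges + 1 else if i < 2 * t.edges + 1 then μ1 (i - 1) + 1
        else if i = 2 * t.edges + 1 then 0
        else μ2 (i - (2 * t.edges + 2)) + (2 * t.edges + 2),
      fun i => if i = 0 then 0 else if i ≤ 2 * t.edges + 1 then (((δ : ℕ) : ℤ) - 1) + ν1 (i - 1)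
        else ν2 (i - (2 * t.edges + 2)), ?_⟩
    intro C τ α lab a z hlab h
    cases h with
    | cons _ _ _ _ _ hne hi hl e1 e2 =>
    obtain ⟨p1, q1, r1⟩ := h1 C τ α lab (τ a) (α a) hlab e1
    obtain ⟨p2, q2, r2⟩ := h2 C τ α lab (τ (α a)) z hlab e2
    have hα : α a = (τ ^ (2 * t.edges + 1)) a := by
      rw [← p1, pow_app_one]
    have hτα : τ (α a) = (τ ^ (2 * t.edges + 2)) a := by
      rw [hα, show 2 * t.edges + 2 = (2 * t.edges + 1) + 1 from rfl, pow_succ' τ (2 * t.edges + 1)]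
      rfl
    have hla : lab (τ (α a)) = lab a := by
      rw [hlab, hi]
    have hsplit : ∀ i, 2 * t.edges + 2 ≤ i →
        (τ ^ i) a = (τ ^ (i - (2 * t.edges + 2))) (τ (α a)) := by
      intro i hi'
      rw [hτα, pow_app]
      congr 2
      omega
    have hsplit1 : ∀ i, 1 ≤ i → (τ ^ i) a = (τ ^ (i - 1)) (τ a) := by
      intro i hi'
      rw [pow_app_one]
      congr 2
      omega
    simp only [LT.edges]
    refine ⟨?_, ?_, ?_⟩
    · rw [hsplit _ (by omega), ← p2]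
      congr 2
      omega
    · intro i hi'
      rcases Nat.eq_zero_or_pos i with h0 | h0
      · rw [if_pos h0, h0, pow_zero]
        exact ⟨by omega, hα⟩
      · rw [if_neg h0.ne']
        by_cases h3 : i < 2 * t.edges + 1
        · rw [if_pos h3]
          obtain ⟨hb, hc⟩ := q1 (i - 1) (by omega)
          refine ⟨by omega, ?_⟩
          rw [hsplit1 i h0, hc, pow_app_one]
        · rw [if_neg h3]
          by_cases h4 : i = 2 * t.edges + 1
          · rw [if_pos h4, h4, ← hα, hi]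
            exact ⟨by omega, rfl⟩
          · rw [if_neg h4]
            obtain ⟨hb, hc⟩ := q2 (i - (2 * t.edges + 2)) (by omega)
            refine ⟨by omega, ?_⟩
            rw [hsplit i (by omega), hc, hτα, pow_app]
    · intro i hi'
      rcases Nat.eq_zero_or_pos i with h0 | h0
      · rw [if_pos h0, h0, pow_zero, add_zero]
        rfl
      · rw [if_neg h0.ne']
        by_cases h3 : i ≤ 2 * t.edges + 1
        · rw [if_pos h3, hsplit1 i h0, r1 (i - 1) (by omega), hl]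
          unfold LT.ch
          ring
        · rw [if_neg h3, hsplit i (by omega), r2 _ (by omega), hla]

theorem onCycle {C : Type} [Fintype C] (τ : Equiv.Perm C) (h : OneCyc τ) :
    τ.IsCycleOn ((Finset.univ : Finset C) : Set C) := by
  refine ⟨⟨fun _ _ => by simp, τ.injective.injOn, fun y _ => ⟨τ.symm y, by simp, by simp⟩⟩,
    fun x _ y _ => h x y⟩

theorem zpow_eq_iff {C : Type} [Fintype C] (τ : Equiv.Perm C) (h : OneCyc τ) (x : C) (m n : ℤ) :
    (τ ^ m) x = (τ ^ n) x ↔ m ≡ n [ZMOD Fintype.card C] :=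
  (onCycle τ h).zpow_apply_eq_zpow_apply (Finset.mem_univ x)

end QRB.H78

namespace QRB

open QR QRB.H78

theorem st_B13 (_h10 : ST_B10) : ST_B13 := by
  intro C C' _ _ τ α lab τ' α' lab' β β' T hcard hc hc' hla hla' hβ hβ' hlb hE hE'
  -- the bijection
  have hz : ∀ c, ∃ k : ℤ, (τ ^ k) (β 0) = c := fun c => hc (β 0) c
  choose k hk using hz
  have hΨz : ∀ z : ℤ, (τ' ^ (k ((τ ^ z) (β 0)))) (β' 0) = (τ' ^ z) (β' 0) := by
    intro z
    rw [zpow_eq_iff τ' hc', ← hcard, ← zpow_eq_iff τ hc (β 0)]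
    exact hk _
  have hinj : Function.Injective (fun c => (τ' ^ (k c)) (β' 0)) := by
    intro c d hcd
    simp only at hcd
    rw [zpow_eq_iff τ' hc', ← hcard, ← zpow_eq_iff τ hc (β 0), hk, hk] at hcd
    exact hcd
  have hbij : Function.Bijective (fun c => (τ' ^ (k c)) (β' 0)) :=
    (Fintype.bijective_iff_injective_and_card _).2 ⟨hinj, hcard⟩
  obtain ⟨Ψ, hΨ⟩ : ∃ Ψ : C ≃ C', ∀ z : ℤ, Ψ ((τ ^ z) (β 0)) = (τ' ^ z) (β' 0) :=
    ⟨Equiv.ofBijective _ hbij, fun z => hΨz z⟩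
  have h0 : Ψ (β 0) = β' 0 := by
    have := hΨ 0
    rwa [zpow_zero, zpow_zero] at this
  have hτ : ∀ c, Ψ (τ c) = τ' (Ψ c) := by
    intro c
    obtain ⟨z, hz⟩ := hc (β 0) c
    have e1 : τ c = (τ ^ (1 + z)) (β 0) := by
      rw [zpow_add, zpow_one, Equiv.Perm.mul_apply, hz]
    rw [e1, ← hz, hΨ, hΨ, zpow_add, zpow_one, Equiv.Perm.mul_apply]
  have hτn : ∀ (n : ℕ) c, Ψ ((τ ^ n) c) = (τ' ^ n) (Ψ c) := by
    intro n
    induction n with
    | zero => intro c; rfl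
    | succ n ih =>
      intro c
      rw [pow_succ, pow_succ, Equiv.Perm.mul_apply, Equiv.Perm.mul_apply, ih, hτ]
  -- the trees
  have hM : ∀ j, ∃ (μ : ℕ → ℕ) (ν : ℕ → ℤ), ∀ (C : Type) (τ α : Equiv.Perm C)
      (lab : C → ℕ) (a z : C), (∀ c, lab (τ c) = lab (α c)) → Enc τ α lab (T j) a z →
      (τ ^ (2 * (T j).edges)) a = z ∧
      (∀ i < 2 * (T j).edges, μ i < 2 * (T j).edges ∧ α ((τ ^ i) a) = (τ ^ (μ i)) a) ∧
      (∀ i ≤ 2 * (T j).edges, (lab ((τ ^ i) a) : ℤ) = lab a + ν i) := fun j => matching (T j)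
  choose μ ν hμν using hM
  have hA := fun j => hμν j C τ α lab (τ (β j)) (β (j + 1)) hla (hE j)
  have hA' := fun j => hμν j C' τ' α' lab' (τ' (β' j)) (β' (j + 1)) hla' (hE' j)
  have hΨβ : ∀ j, Ψ (β j) = β' j := by
    intro j
    induction j with
    | zero => exact h0
    | succ j ih => rw [← (hA j).1, hτn, hτ, ih, (hA' j).1]
  -- every corner is on one of the paths
  have hcov : ∀ n : ℕ, ∀ j, ∃ j' i, i ≤ 2 * (T j').edges ∧
      (τ ^ n) (τ (β j)) = (τ ^ i) (τ (β j')) := by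
    intro n
    induction n using Nat.strong_induction_on with
    | _ n ih =>
      intro j
      by_cases hn : n ≤ 2 * (T j).edges
      · exact ⟨j, n, hn, rfl⟩
      · obtain ⟨j', i, hi, he⟩ := ih (n - 2 * (T j).edges - 1) (by omega) (j + 1)
        refine ⟨j', i, hi, ?_⟩
        rw [← he, ← (hA j).1, pow_app_one τ (n - 2 * (T j).edges - 1), pow_app]
        congr 2
        omega
  have hcov' : ∀ c, ∃ j i, i ≤ 2 * (T j).edges ∧ c = (τ ^ i) (τ (β j)) := by
    intro c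
    obtain ⟨n, hn⟩ := (hc (τ (β 0)) c).exists_nat_pow_eq
    obtain ⟨j, i, hi, he⟩ := hcov n 0
    exact ⟨j, i, hi, by rw [← he, hn]⟩
  refine ⟨Ψ, h0, hτ, fun c => ?_, fun c => ?_⟩
  · obtain ⟨j, i, hi, rfl⟩ := hcov' c
    rcases hi.lt_or_eq with hlt | rfl
    · obtain ⟨-, h1⟩ := (hA j).2.1 i hlt
      obtain ⟨-, h2⟩ := (hA' j).2.1 i hlt
      rw [h1, hτn, hτn, hτ, hΨβ, h2]
    · rw [(hA j).1, hβ, hΨβ, hΨβ, hβ']
  · obtain ⟨j, i, hi, rfl⟩ := hcov' c
    have h1 := (hA j).2.2 i hi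
    have h2 := (hA' j).2.2 i hi
    rw [hτn, hτ, hΨβ]
    rw [hla, hβ] at h1
    rw [hla', hβ', ← hlb] at h2
    rw [← h1] at h2
    exact_mod_cast h2

end QRB

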